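import Pool.Agent.V11111.BF.Main

open MeasureTheory Set Filter Topology

namespace Pool.Agent.Results.MP_d4a354_an.ContinuumIff

open Pool.Agent.V11111.BF

/-- Let `β > 1` be real (in particular, any non-integer `β > 1`), `m = ⌊β⌋`, and let `p̄`, `p_` be
vectors indexed by the digits `0, …, m`. Almost every `x` of `I_β = [0, m / (β - 1)]` has a
`β`-expansion of frequency `(p̄, p_)` if and only if, for almost every `x` of `I_β`, the set
`E_β(x; p̄, p_)` of all such expansions has the cardinality of the continuum. -/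
theorem result (β : ℝ) (hβ : 1 < β) (pu pl : Fin (⌊β⌋₊ + 1) → ℝ) :
    (∀ᵐ x ∂(volume.restrict (Icc (0 : ℝ) (⌊β⌋₊ / (β - 1)))), (ESet β x pu pl).Nonempty) ↔
      ∀ᵐ x ∂(volume.restrict (Icc (0 : ℝ) (⌊β⌋₊ / (β - 1)))),
        Cardinal.mk (ESet β x pu pl) = Cardinal.continuum :=
  main β hβ pu pl

end Pool.Agent.Results.MP_d4a354_an.ContinuumIff
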